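import Mathlib

/-!
The complete homogeneous sums of `α, β, x`, where `α + β = b`, `α β = c`: exact powers of two
(`MP_130199_nt`).
-/

set_option autoImplicit false

namespace Pool.Agent.H659.TD

/-- `f (k + 2)` is the complete homogeneous symmetric polynomial of degree `k` in `α, β, x`,
where `α + β = b` and `α β = c`. -/
def f (b c x : ℤ) : ℕ → ℤ
  | 0 => 0
  | 1 => 0
  | 2 => 1
  | (k + 3) => (b + x) * f b c x (k + 2) - (c + b * x) * f b c x (k + 1) + c * x * f b c x k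

theorem f_rec (b c x : ℤ) (k : ℕ) : f b c x (k + 3) =
    (b + x) * f b c x (k + 2) - (c + b * x) * f b c x (k + 1) + c * x * f b c x k := rfl

theorem f_two_step (b c x : ℤ) (k : ℕ) : f b c x (k + 6) =
    ((b ^ 2 - 2 * c) + x ^ 2) * f b c x (k + 4) - (c ^ 2 + (b ^ 2 - 2 * c) * x ^ 2) * f b c x (k + 2)
      + c ^ 2 * x ^ 2 * f b c x k := by
  have h0 := f_rec b c x k
  have h1 := f_rec b c x (k + 1)
  have h2 := f_rec b c x (k + 2)
  have h3 := f_rec b c x (k + 3)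
  simp only [show k + 1 + 3 = k + 4 by ring, show k + 1 + 2 = k + 3 by ring,
    show k + 1 + 1 = k + 2 by ring, show k + 2 + 3 = k + 5 by ring, show k + 2 + 2 = k + 4 by ring,
    show k + 2 + 1 = k + 3 by ring, show k + 3 + 3 = k + 6 by ring, show k + 3 + 2 = k + 5 by ring,
    show k + 3 + 1 = k + 4 by ring] at h1 h2 h3
  linear_combination h3 + (b + x) * h2 + (c + b * x) * h1 + c * x * h0

theorem dbl (b c x : ℤ) : ∀ k : ℕ,
    f b c x (2 * k) = f (b ^ 2 - 2 * c) (c ^ 2) (x ^ 2) (k + 1) +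
      (c + b * x) * f (b ^ 2 - 2 * c) (c ^ 2) (x ^ 2) k ∧
    f b c x (2 * k + 1) = (b + x) * f (b ^ 2 - 2 * c) (c ^ 2) (x ^ 2) (k + 1) +
      c * x * f (b ^ 2 - 2 * c) (c ^ 2) (x ^ 2) k
  | 0 => by simp [f]
  | 1 => by simp [f]
  | 2 => by
    simp only [f]
    constructor <;> ring
  | (k + 3) => by
    obtain ⟨a0, c0⟩ := dbl b c x k
    obtain ⟨a1, c1⟩ := dbl b c x (k + 1)
    obtain ⟨a2, c2⟩ := dbl b c x (k + 2)
    have e0 := f_two_step b c x (2 * k)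
    have e1 := f_two_step b c x (2 * k + 1)
    have g0 := f_rec (b ^ 2 - 2 * c) (c ^ 2) (x ^ 2) k
    have g1 := f_rec (b ^ 2 - 2 * c) (c ^ 2) (x ^ 2) (k + 1)
    simp only [show 2 * k + 1 + 6 = 2 * (k + 3) + 1 by ring, show 2 * k + 1 + 4 = 2 * (k + 2) + 1 by ring,
      show 2 * k + 1 + 2 = 2 * (k + 1) + 1 by ring, show 2 * k + 6 = 2 * (k + 3) by ring,
      show 2 * k + 4 = 2 * (k + 2) by ring, show 2 * k + 2 = 2 * (k + 1) by ring] at e0 e1
    simp only [show k + 1 + 3 = k + 4 by ring, show k + 1 + 2 = k + 3 by ring,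
      show k + 1 + 1 = k + 2 by ring, show k + 2 + 1 = k + 3 by ring,
      show k + 3 + 1 = k + 4 by ring] at *
    constructor
    · rw [e0, a0, a1, a2, g1, g0]; ring
    · rw [e1, c0, c1, c2, g1, g0]; ring

theorem diff (b c x : ℤ) (k : ℕ) : f b c x (2 * k + 1) - (x + b) * f b c x (2 * k) =
    -(b * (x ^ 2 + c + b * x)) * f (b ^ 2 - 2 * c) (c ^ 2) (x ^ 2) k := by
  obtain ⟨a0, c0⟩ := dbl b c x k
  rw [a0, c0]; ring

theorem eight_dvd (b c x : ℤ) (hc : Odd c) (hx : Odd x) (hb : (4 : ℤ) ∣ b - (1 + c)) :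
    (8 : ℤ) ∣ b * (x ^ 2 + c + b * x) := by
  obtain ⟨m, hm⟩ := hx
  obtain ⟨n, hn⟩ := hc
  obtain ⟨l, hl⟩ := hb
  have hb' : b = 2 * (n + 1 + 2 * l) := by linarith
  subst hm hn hb'
  have h : ∀ n l m : ZMod 8, 2 * (n + 1 + 2 * l) *
      ((2 * m + 1) ^ 2 + (2 * n + 1) + 2 * (n + 1 + 2 * l) * (2 * m + 1)) = 0 := by decide
  have h' := h n l m
  have := (ZMod.intCast_zmod_eq_zero_iff_dvd (2 * (n + 1 + 2 * l) *
      ((2 * m + 1) ^ 2 + (2 * n + 1) + 2 * (n + 1 + 2 * l) * (2 * m + 1))) 8).1 (by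
        push_cast; exact h')
  exact_mod_cast this

theorem four_dvd (b c x : ℤ) (hc : Odd c) (hx : Odd x) (hb : (4 : ℤ) ∣ b - (1 + c)) :
    ∃ k : ℤ, x ^ 2 + (b ^ 2 - 2 * c) + (c + b * x) = 2 * (2 * k + 1) := by
  obtain ⟨n, hn⟩ := hc
  obtain ⟨l, hl⟩ := hb
  obtain ⟨m, hm⟩ := hx
  have hb' : b = 2 * (n + 1 + 2 * l) := by linarith
  subst hm hn hb'
  have h : ∀ n l m : ZMod 4, (2 * m + 1) ^ 2 + ((2 * (n + 1 + 2 * l)) ^ 2 - 2 * (2 * n + 1)) +
      ((2 * n + 1) + 2 * (n + 1 + 2 * l) * (2 * m + 1)) - 2 = 0 := by decide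
  have h' := h n l m
  obtain ⟨k, hk⟩ := (ZMod.intCast_zmod_eq_zero_iff_dvd ((2 * m + 1) ^ 2 +
      ((2 * (n + 1 + 2 * l)) ^ 2 - 2 * (2 * n + 1)) +
      ((2 * n + 1) + 2 * (n + 1 + 2 * l) * (2 * m + 1)) - 2) 4).1 (by push_cast; exact h')
  refine ⟨k, ?_⟩
  push_cast at hk
  linarith

theorem parity (b c x : ℤ) (hc : Odd c) (hx : Odd x) (hb : (4 : ℤ) ∣ b - (1 + c)) : ∀ k : ℕ,
    Even (f b c x (4 * k)) ∧ Even (f b c x (4 * k + 1)) ∧ Odd (f b c x (4 * k + 2)) ∧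
      Odd (f b c x (4 * k + 3)) := by
  have hbe : Even b := by
    obtain ⟨n, hn⟩ := hc
    obtain ⟨l, hl⟩ := hb
    exact ⟨n + 1 + 2 * l, by linarith⟩
  have h1 : Odd (b + x) := hbe.add_odd hx
  have h2 : Odd (c + b * x) := hc.add_even (hbe.mul_right x)
  have h3 : Odd (c * x) := hc.mul hx
  intro k
  induction k with
  | zero => simp [f, h1]
  | succ k ih =>
    obtain ⟨i0, i1, i2, i3⟩ := ih
    have j0 : Even (f b c x (4 * k + 4)) := by
      have := f_rec b c x (4 * k + 1)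
      rw [show 4 * k + 1 + 3 = 4 * k + 4 by ring, show 4 * k + 1 + 2 = 4 * k + 3 by ring,
        show 4 * k + 1 + 1 = 4 * k + 2 by ring] at this
      rw [this]
      exact ((h1.mul i3).sub_odd (h2.mul i2)).add (i1.mul_left _)
    have j1 : Even (f b c x (4 * k + 5)) := by
      have := f_rec b c x (4 * k + 2)
      rw [show 4 * k + 2 + 3 = 4 * k + 5 by ring, show 4 * k + 2 + 2 = 4 * k + 4 by ring,
        show 4 * k + 2 + 1 = 4 * k + 3 by ring] at this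
      rw [this]
      exact ((j0.mul_left _).sub_odd (h2.mul i3)).add_odd (h3.mul i2)
    have j2 : Odd (f b c x (4 * k + 6)) := by
      have := f_rec b c x (4 * k + 3)
      rw [show 4 * k + 3 + 3 = 4 * k + 6 by ring, show 4 * k + 3 + 2 = 4 * k + 5 by ring,
        show 4 * k + 3 + 1 = 4 * k + 4 by ring] at this
      rw [this]
      exact ((j1.mul_left _).sub (j0.mul_left _)).add_odd (h3.mul i3)
    have j3 : Odd (f b c x (4 * k + 7)) := by
      have := f_rec b c x (4 * k + 4)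
      rw [show 4 * k + 4 + 3 = 4 * k + 7 by ring, show 4 * k + 4 + 2 = 4 * k + 6 by ring,
        show 4 * k + 4 + 1 = 4 * k + 5 by ring] at this
      rw [this]
      exact ((h1.mul j2).sub_even (j1.mul_left _)).add_even (j0.mul_left _)
    exact ⟨j0, j1, j2, j3⟩

/-- `f (2 r)` is exactly divisible by the same power of two as `r`, and `f (2 r + 1)` is close to
`(x + b) f (2 r)`. -/
theorem adic (v : ℕ) : ∀ b c x : ℤ, Odd c → Odd x → (4 : ℤ) ∣ b - (1 + c) → ∀ u : ℕ, Odd u →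
    (∃ y, Odd y ∧ f b c x (2 * (2 ^ v * u)) = 2 ^ v * y) ∧
    (2 ^ (v + 2) : ℤ) ∣ f b c x (2 * (2 ^ v * u) + 1) - (x + b) * f b c x (2 * (2 ^ v * u)) := by
  induction v with
  | zero =>
    intro b c x hc hx hb u hu
    obtain ⟨t, ht⟩ := hu
    constructor
    · refine ⟨f b c x (2 * (2 ^ 0 * u)), ?_, by ring⟩
      rw [pow_zero, one_mul, ht, show 2 * (2 * t + 1) = 4 * t + 2 by ring]
      exact (parity b c x hc hx hb t).2.2.1
    · rw [diff]
      have h8 := eight_dvd b c x hc hx hb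
      have h4 : (2 ^ (0 + 2) : ℤ) ∣ b * (x ^ 2 + c + b * x) := by
        refine dvd_trans ⟨2, by norm_num⟩ h8
      exact Dvd.dvd.mul_right ((dvd_neg).2 h4) _
  | succ v ih =>
    intro b c x hc hx hb u hu
    have hc' : Odd (c ^ 2) := hc.pow
    have hx' : Odd (x ^ 2) := hx.pow
    have hb' : (4 : ℤ) ∣ (b ^ 2 - 2 * c) - (1 + c ^ 2) := by
      obtain ⟨n, hn⟩ := hc
      obtain ⟨l, hl⟩ := hb
      refine ⟨(n + 1 + 2 * l) ^ 2 - (n + 1) ^ 2, ?_⟩
      have : b = 2 * (n + 1 + 2 * l) := by linarith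
      rw [this, hn]; ring
    obtain ⟨⟨y, hy, hy2⟩, hd⟩ := ih (b ^ 2 - 2 * c) (c ^ 2) (x ^ 2) hc' hx' hb' u hu
    obtain ⟨z, hz⟩ := hd
    have hr : 2 ^ (v + 1) * u = 2 * (2 ^ v * u) := by ring
    constructor
    · have h1 := (dbl b c x (2 ^ (v + 1) * u)).1
      rw [h1, hr]
      have h2 : f (b ^ 2 - 2 * c) (c ^ 2) (x ^ 2) (2 * (2 ^ v * u) + 1) =
          (x ^ 2 + (b ^ 2 - 2 * c)) * (2 ^ v * y) + 2 ^ (v + 2) * z := by
        rw [← hy2]; linarith
      rw [h2, hy2]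
      have hk := four_dvd b c x hc hx hb
      obtain ⟨k, hk⟩ := hk
      refine ⟨(2 * k + 1) * y + 2 * z, ?_, ?_⟩
      · exact ((odd_two_mul_add_one k).mul hy).add_even (even_two_mul z)
      · have : (x ^ 2 + (b ^ 2 - 2 * c)) * (2 ^ v * y) + 2 ^ (v + 2) * z + (c + b * x) * (2 ^ v * y) =
            (x ^ 2 + (b ^ 2 - 2 * c) + (c + b * x)) * (2 ^ v * y) + 2 ^ (v + 2) * z := by ring
        rw [this, hk]; ring
    · rw [diff, hr, hy2]
      obtain ⟨e, he⟩ := eight_dvd b c x hc hx hb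
      rw [he]
      exact ⟨-(e * y), by ring⟩

end Pool.Agent.H659.TD
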