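import Pool.Agent.H659.TD.Adic

/-!
The sums `∑ τ(2^j) / 8^j` are nonzero (`MP_130199_nt`).
-/

set_option autoImplicit false

namespace Pool.Agent.H659.TD

/-- the companion matrix -/
def M : Matrix (Fin 3) (Fin 3) ℤ := !![0, 1, 0; 0, 0, 1; 32, -29, -2]

theorem M_pow (k : ℕ) : (M ^ k) 0 2 = f (-3) 32 1 k ∧ (M ^ k) 1 2 = f (-3) 32 1 (k + 1) ∧
    (M ^ k) 2 2 = f (-3) 32 1 (k + 2) := by
  induction k with
  | zero => simp [f]
  | succ k ih =>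
    obtain ⟨h0, h1, h2⟩ := ih
    have e : ∀ i : Fin 3, (M ^ (k + 1)) i 2 = M i 0 * (M ^ k) 0 2 + M i 1 * (M ^ k) 1 2 +
        M i 2 * (M ^ k) 2 2 := by
      intro i
      rw [pow_succ', Matrix.mul_apply, Fin.sum_univ_three]
    refine ⟨?_, ?_, ?_⟩
    · rw [e, h0, h1, h2]; simp [M]
    · rw [e, h0, h1, h2]; simp [M]
    · rw [e, h0, h1, h2, show k + 1 + 2 = k + 3 by ring, f_rec]; simp [M]; ring

theorem cube (q : ℤ) (Y : Matrix (Fin 3) (Fin 3) ℤ) : (1 + q • Y) ^ 3 =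
    1 + (3 * q) • Y + (3 * q ^ 2) • (Y * Y) + q ^ 3 • (Y * Y * Y) := by
  rw [pow_succ, pow_succ, pow_one]
  simp only [mul_add, add_mul, one_mul, mul_one, smul_mul_assoc, mul_smul_comm, smul_smul, smul_add]
  module

/-- `(M ^ 6 - 1) / 3` -/
def Y0 : Matrix (Fin 3) (Fin 3) ℤ :=
  !![1493, -1620, 127; 4064, -2190, -1874; -59968, 58410, 1558]

theorem M_six : M ^ 6 = 1 + (3 : ℤ) • Y0 := by
  have h2 : M ^ 2 = !![0, 0, 1; 32, -29, -2; -64, 90, -25] := by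
    rw [pow_two]
    ext i j
    fin_cases i <;> fin_cases j <;> simp [M, Matrix.mul_apply, Fin.sum_univ_three]
  have h4 : M ^ 4 = !![-64, 90, -25; -800, 661, 140; 4480, -4860, 381] := by
    rw [show 4 = 2 + 2 by norm_num, pow_add, h2]
    ext i j
    fin_cases i <;> fin_cases j <;> simp [Matrix.mul_apply, Fin.sum_univ_three]
  rw [show 6 = 4 + 2 by norm_num, pow_add, h2, h4]
  ext i j
  fin_cases i <;> fin_cases j <;> simp [Y0, Matrix.mul_apply, Fin.sum_univ_three]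

theorem stepA (v : ℕ) : ∃ Z : Matrix (Fin 3) (Fin 3) ℤ,
    M ^ (6 * 3 ^ v) = 1 + (3 ^ (v + 1) : ℤ) • (Y0 + (3 : ℤ) • Z) := by
  induction v with
  | zero => exact ⟨0, by rw [pow_zero, mul_one, M_six]; simp⟩
  | succ v ih =>
    obtain ⟨Z, hZ⟩ := ih
    rw [show 6 * 3 ^ (v + 1) = (6 * 3 ^ v) * 3 by ring, pow_mul, hZ, cube]
    generalize hY : Y0 + (3 : ℤ) • Z = Y
    refine ⟨Z + (3 ^ v : ℤ) • (Y * Y) + (3 ^ (2 * v) : ℤ) • (Y * Y * Y), ?_⟩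
    have e1 : (3 : ℤ) ^ (v + 1 + 1) • (Y0 + (3 : ℤ) • (Z + (3 ^ v : ℤ) • (Y * Y) +
        (3 ^ (2 * v) : ℤ) • (Y * Y * Y))) = (3 : ℤ) ^ (v + 1 + 1) • Y +
        ((3 : ℤ) ^ (v + 1 + 1) * 3 * 3 ^ v) • (Y * Y) +
        ((3 : ℤ) ^ (v + 1 + 1) * 3 * 3 ^ (2 * v)) • (Y * Y * Y) := by
      rw [← hY]
      generalize (Y0 + (3 : ℤ) • Z) * (Y0 + (3 : ℤ) • Z) = P
      generalize P * (Y0 + (3 : ℤ) • Z) = Q
      module
    rw [e1, show (3 : ℤ) ^ (v + 1 + 1) = 3 * 3 ^ (v + 1) by ring,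
      show (3 : ℤ) * 3 ^ (v + 1) * 3 * 3 ^ v = 3 * (3 ^ (v + 1)) ^ 2 by ring,
      show (3 : ℤ) * 3 ^ (v + 1) * 3 * 3 ^ (2 * v) = (3 ^ (v + 1)) ^ 3 by ring]
    abel

theorem stepB (v m : ℕ) : ∃ Z : Matrix (Fin 3) (Fin 3) ℤ,
    M ^ (6 * 3 ^ v * m) = 1 + (3 ^ (v + 1) : ℤ) • ((m : ℤ) • Y0 + (3 : ℤ) • Z) := by
  obtain ⟨Z, hZ⟩ := stepA v
  induction m with
  | zero => exact ⟨0, by simp⟩
  | succ m ih =>
    obtain ⟨W, hW⟩ := ih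
    rw [show 6 * 3 ^ v * (m + 1) = 6 * 3 ^ v * m + 6 * 3 ^ v by ring, pow_add, hW, hZ]
    generalize hP : ((m : ℤ) • Y0 + (3 : ℤ) • W) = P
    generalize hQ : (Y0 + (3 : ℤ) • Z) = Q
    refine ⟨W + Z + (3 ^ v : ℤ) • (P * Q), ?_⟩
    have e1 : (3 ^ (v + 1) : ℤ) • (((m + 1 : ℕ) : ℤ) • Y0 +
        (3 : ℤ) • (W + Z + (3 ^ v : ℤ) • (P * Q))) =
        (3 ^ (v + 1) : ℤ) • P + (3 ^ (v + 1) : ℤ) • Q +
        ((3 : ℤ) ^ (v + 1) * (3 * 3 ^ v)) • (P * Q) := by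
      generalize P * Q = R
      rw [← hP, ← hQ]
      push_cast
      module
    rw [e1]
    simp only [mul_add, add_mul, one_mul, mul_one, smul_mul_assoc, mul_smul_comm, smul_add,
      smul_smul]
    rw [show (3 : ℤ) ^ (v + 1) * 3 ^ (v + 1) = 3 ^ (v + 1) * (3 * 3 ^ v) by ring]
    abel

theorem f_six (v m : ℕ) (hm : ¬ 3 ∣ m) :
    f (-3) 32 1 (6 * (3 ^ v * m)) ≠ 0 ∧ f (-3) 32 1 (6 * (3 ^ v * m) + 1) ≠ 0 := by
  obtain ⟨Z, hZ⟩ := stepB v m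
  obtain ⟨h0, h1, -⟩ := M_pow (6 * 3 ^ v * m)
  rw [hZ] at h0 h1
  have hm' : ¬ (3 : ℤ) ∣ m := by exact_mod_cast hm
  rw [show 6 * (3 ^ v * m) = 6 * 3 ^ v * m by ring]
  have h3 : (3 : ℤ) ^ (v + 1) ≠ 0 := by positivity
  constructor
  · rw [← h0]
    simp only [Matrix.add_apply, Matrix.smul_apply, Matrix.one_apply, smul_eq_mul]
    rw [if_neg (by decide), zero_add]
    apply mul_ne_zero h3
    have : Y0 0 2 = 127 := by simp [Y0]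
    rw [this]
    intro h
    apply hm'
    exact ⟨-(42 * m + Z 0 2), by linarith⟩
  · rw [← h1]
    simp only [Matrix.add_apply, Matrix.smul_apply, Matrix.one_apply, smul_eq_mul]
    rw [if_neg (by decide), zero_add]
    apply mul_ne_zero h3
    have : Y0 1 2 = -1874 := by simp [Y0]
    rw [this]
    intro h
    apply hm'
    exact ⟨625 * m - Z 1 2, by linarith⟩

theorem f_mod (x : ℕ) : (3 : ℤ) ∣ f (-3) 32 1 (6 * x) ∧ (3 : ℤ) ∣ f (-3) 32 1 (6 * x + 1) ∧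
    (3 : ℤ) ∣ f (-3) 32 1 (6 * x + 2) - 1 := by
  obtain ⟨Z, hZ⟩ := stepB 0 x
  obtain ⟨h0, h1, h2⟩ := M_pow (6 * 3 ^ 0 * x)
  rw [hZ] at h0 h1 h2
  rw [pow_zero, mul_one] at h0 h1 h2
  simp only [Matrix.add_apply, Matrix.smul_apply, Matrix.one_apply, smul_eq_mul] at h0 h1 h2
  rw [if_neg (by decide), zero_add] at h0 h1
  rw [if_pos trivial] at h2
  refine ⟨?_, ?_, ?_⟩
  · rw [← h0]; exact ⟨_, by rw [zero_add, pow_one]⟩
  · rw [← h1]; exact ⟨_, by rw [zero_add, pow_one]⟩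
  · rw [← h2]; exact ⟨_, by rw [zero_add, pow_one, add_sub_cancel_left]⟩

theorem f_ne (k : ℕ) : f (-3) 32 1 (k + 2) ≠ 0 := by
  obtain ⟨x, r, hr, hx⟩ : ∃ x r, r < 6 ∧ k + 2 = 6 * x + r :=
    ⟨(k + 2) / 6, (k + 2) % 6, by omega, by omega⟩
  rw [hx]
  obtain ⟨⟨a, ha⟩, ⟨b, hb⟩, ⟨c, hc⟩⟩ := f_mod x
  have r3 := f_rec (-3) 32 1 (6 * x)
  have r4 := f_rec (-3) 32 1 (6 * x + 1)
  have r5 := f_rec (-3) 32 1 (6 * x + 2)
  simp only [show 6 * x + 1 + 3 = 6 * x + 4 by ring, show 6 * x + 1 + 2 = 6 * x + 3 by ring,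
    show 6 * x + 1 + 1 = 6 * x + 2 by ring, show 6 * x + 2 + 3 = 6 * x + 5 by ring,
    show 6 * x + 2 + 2 = 6 * x + 4 by ring, show 6 * x + 2 + 1 = 6 * x + 3 by ring] at r4 r5
  have hxm : r < 2 → ∃ v m, ¬ 3 ∣ m ∧ x = 3 ^ v * m := by
    intro h
    have hx0 : x ≠ 0 := by omega
    obtain ⟨v, m, hm, hv⟩ := Nat.exists_eq_pow_mul_and_not_dvd hx0 3 (by norm_num)
    exact ⟨v, m, hm, hv⟩
  rcases Nat.lt_or_ge r 2 with h | h
  · obtain ⟨v, m, hm, rfl⟩ := hxm h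
    interval_cases r
    · exact (f_six v m hm).1
    · exact (f_six v m hm).2
  · interval_cases r
    · omega
    · omega
    · omega
    · omega

/-- homogeneity -/
theorem f_hom (b c x l : ℤ) (k : ℕ) :
    f (l * b) (l ^ 2 * c) (l * x) (k + 2) = l ^ k * f b c x (k + 2) ∧
    f (l * b) (l ^ 2 * c) (l * x) (k + 3) = l ^ (k + 1) * f b c x (k + 3) ∧
    f (l * b) (l ^ 2 * c) (l * x) (k + 4) = l ^ (k + 2) * f b c x (k + 4) := by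
  induction k with
  | zero =>
    refine ⟨by simp [f], by simp [f]; ring, by simp [f]; ring⟩
  | succ k ih =>
    obtain ⟨h0, h1, h2⟩ := ih
    refine ⟨h1, h2, ?_⟩
    have e1 := f_rec (l * b) (l ^ 2 * c) (l * x) (k + 2)
    have e2 := f_rec b c x (k + 2)
    simp only [show k + 2 + 3 = k + 5 by ring, show k + 2 + 2 = k + 4 by ring,
      show k + 2 + 1 = k + 3 by ring] at e1 e2
    rw [show k + 1 + 4 = k + 5 by ring, e1, e2, h0, h1, h2]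
    ring

end Pool.Agent.H659.TD
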