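import Pool.Agent.H659.TD.Main
import Pool.Agent.H659.TD.Three
import Pool.Graph.R_pool_sql_team_seeded_843ab51a.Results.MP_130199_nt.EuclideanDesigns

/-!
All integer exponents, designs (`MP_130199_nt`).
-/

set_option autoImplicit false

namespace Pool.Agent.H659.TD

open Pool.Agent.X3.Tau (tau hecke tau_zero tau_one tau_two two_pow)

/-- the completely multiplicative function `n ^ s` -/
def pw (s : ℕ) : ℕ →* ℤ where
  toFun n := (n : ℤ) ^ s
  map_one' := by simp
  map_mul' m n := by push_cast; rw [mul_pow]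

theorem pw_apply (s n : ℕ) : pw s n = (n : ℤ) ^ s := rfl

theorem pw_odd (s p : ℕ) (hp : p.Prime) (h2 : p ≠ 2) : Odd (pw s p) := by
  rw [pw_apply]
  have : Odd (p : ℤ) := by exact_mod_cast hp.odd_of_ne_two h2
  exact this.pow

theorem B_three_two (k : ℕ) : B 1 (pw 3) (2 ^ k) ≠ 0 := by
  rw [B_prime_pow 1 (pw 3) 2 Nat.prime_two]
  have h := sum_eq (fun j => tau (2 ^ j) * ((1 : ℕ →* ℤ) 2) ^ j) (-24) 2048 ((pw 3) 2)
    (by simp [tau_one]) (by simp [tau_two]) (fun j => by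
      have := tau_pow 2 Nat.prime_two j
      rw [tau_two] at this
      simp only [MonoidHom.one_apply, one_pow, mul_one]
      rw [this]
      norm_num) k
  have h2 := (f_hom (-3) 32 1 8 k).1
  have e8 : (pw 3) 2 = 8 := by rw [pw_apply]; norm_num
  rw [e8] at h ⊢
  rw [h]
  norm_num at h2
  rw [h2]
  exact mul_ne_zero (by positivity) (f_ne k)

theorem B_pos (s n : ℕ) (hn : 0 < n) : B (pw s) 1 n ≠ 0 := by
  obtain ⟨y, hy, ey⟩ := B_all (pw s) 1 (fun p hp h2 => ⟨pw_odd s p hp h2, odd_one⟩) 0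
    (by simp) (by simp) (by
      rw [pw_apply, MonoidHom.one_apply]
      intro h
      have h8 : (2 ^ (0 + 1) : ℤ) ∣ 8 * ((2 : ℕ) : ℤ) ^ s := by
        exact Dvd.dvd.mul_right (by norm_num) _
      have := (dvd_add_right h8).1 h
      norm_num at this) n hn
  rw [ey]
  have : y ≠ 0 := by rintro rfl; simp at hy
  positivity

theorem B_neg (s n : ℕ) (hn : 0 < n) : B 1 (pw s) n ≠ 0 := by
  by_cases h3 : s = 3
  · subst h3
    obtain ⟨k, u, hu, rfl⟩ := Nat.exists_eq_two_pow_mul_odd hn.ne'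
    have hcop : (2 ^ k).Coprime u := Nat.Coprime.pow_left k (Nat.coprime_two_left.2 hu)
    obtain ⟨y, hy, ey⟩ := B_odd 1 (pw 3) (fun p hp h2 => ⟨odd_one, pw_odd 3 p hp h2⟩) u hu
    rw [B_coprime _ _ _ _ hcop]
    refine mul_ne_zero (B_three_two k) ?_
    rw [ey]
    have : y ≠ 0 := by rintro rfl; simp at hy
    positivity
  · have h2s : (pw s) 2 = 2 ^ s := by rw [pw_apply]; norm_num
    have h : ∃ e : ℕ, (2 ^ e : ℤ) ∣ 8 * (1 : ℕ →* ℤ) 2 ∧ (2 ^ e : ℤ) ∣ (pw s) 2 ∧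
        ¬ (2 ^ (e + 1) : ℤ) ∣ 8 * (1 : ℕ →* ℤ) 2 + (pw s) 2 := by
      rw [h2s, MonoidHom.one_apply, mul_one]
      rcases Nat.lt_or_ge s 3 with hs | hs
      · refine ⟨s, ?_, dvd_rfl, ?_⟩
        · interval_cases s <;> norm_num
        · interval_cases s <;> norm_num
      · obtain ⟨r, rfl⟩ : ∃ r, s = 4 + r := ⟨s - 4, by omega⟩
        refine ⟨3, by norm_num, ?_, ?_⟩
        · exact pow_dvd_pow 2 (by omega)
        · intro h
          have h16 : (2 ^ (3 + 1) : ℤ) ∣ 2 ^ (4 + r) := pow_dvd_pow 2 (by omega)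
          have := (dvd_add_left h16).1 h
          norm_num at this
    obtain ⟨e, h1, h2, h4⟩ := h
    obtain ⟨y, hy, ey⟩ := B_all 1 (pw s) (fun p hp h2 => ⟨odd_one, pw_odd s p hp h2⟩) e
      h1 h2 h4 n hn
    rw [ey]
    have : y ≠ 0 := by rintro rfl; simp at hy
    positivity

/-- all integer exponents -/
theorem sum_ne (t : ℤ) (n : ℕ) (hn : 0 < n) : ∑ d ∈ n.divisors, (tau d : ℝ) * (d : ℝ) ^ t ≠ 0 := by
  rcases Int.le_total 0 t with ht | ht
  · obtain ⟨s, rfl⟩ := Int.eq_ofNat_of_zero_le ht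
    have h := B_pos s n hn
    have e : ((B (pw s) 1 n : ℤ) : ℝ) = ∑ d ∈ n.divisors, (tau d : ℝ) * (d : ℝ) ^ (s : ℤ) := by
      rw [B]
      push_cast
      refine Finset.sum_congr rfl fun d _ => ?_
      rw [MonoidHom.one_apply, pw_apply]
      push_cast
      rw [mul_one, zpow_natCast]
    rw [← e]
    exact_mod_cast h
  · obtain ⟨s, hs⟩ := Int.eq_ofNat_of_zero_le (show 0 ≤ -t by omega)
    obtain rfl : t = -(s : ℤ) := by omega
    have h := B_neg s n hn
    have hn0 : (n : ℝ) ≠ 0 := by exact_mod_cast hn.ne'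
    have e : ((B 1 (pw s) n : ℤ) : ℝ) =
        (n : ℝ) ^ s * ∑ d ∈ n.divisors, (tau d : ℝ) * (d : ℝ) ^ (-(s : ℤ)) := by
      rw [B, Finset.mul_sum, Int.cast_sum]
      refine Finset.sum_congr rfl fun d hd => ?_
      have hdn := Nat.dvd_of_mem_divisors hd
      have hd0 : (d : ℝ) ≠ 0 := by
        have : 0 < d := Nat.pos_of_mem_divisors hd
        exact_mod_cast this.ne'
      rw [Int.cast_mul, Int.cast_mul, MonoidHom.one_apply, Int.cast_one, pw_apply, Int.cast_pow,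
        Int.cast_natCast, Nat.cast_div hdn hd0, zpow_neg, zpow_natCast, div_pow]
      field_simp
    intro h0
    apply h
    rw [h0, mul_zero] at e
    exact_mod_cast e

open Pool.Agent.Results.MP_130199_nt.UnionsOfShells
open Pool.Agent.Results.MP_130199_nt.EuclideanDesigns

theorem tau_es (n : ℕ) : Pool.Agent.H209.ES.tau n = tau n := by
  rw [Pool.Agent.X3.Tau.tau_eq]; rfl

theorem not_design (n : ℕ) (w : ℕ → ℝ)
    (h : ∑ d ∈ n.divisors, (tau d : ℝ) * (w d / (d : ℝ) ^ 4) ≠ 0) :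
    ¬ IsDesign 8 n.divisors w := by
  apply Pool.Agent.Results.MP_130199_nt.UnionsOfShells.not_design n.divisors w
    (fun d hd => Nat.pos_of_mem_divisors hd)
  intro h0
  apply h
  rw [← h0]
  refine Finset.sum_congr rfl fun d _ => ?_
  rw [tau_es]
  ring

theorem not_euclid (n : ℕ) (w : ℕ → ℝ)
    (h : ∑ d ∈ n.divisors, (tau d : ℝ) * w d ≠ 0) :
    ¬ IsEuclideanDesign 8 n.divisors w := by
  intro hd
  apply h
  rw [← not_design' n.divisors w (fun d hd => Nat.pos_of_mem_divisors hd) hd]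
  refine Finset.sum_congr rfl fun d _ => ?_
  rw [tau_es]
  ring

theorem design_pow (t : ℤ) (n : ℕ) (hn : 0 < n) :
    ¬ IsDesign 8 n.divisors (fun d => (d : ℝ) ^ t) := by
  apply not_design
  have h := sum_ne (t - 4) n hn
  convert h using 2 with d hd
  have hd0 : (d : ℝ) ≠ 0 := by
    have : 0 < d := Nat.pos_of_mem_divisors hd
    exact_mod_cast this.ne'
  rw [zpow_sub₀ hd0]
  norm_cast

theorem euclid_pow (t : ℤ) (n : ℕ) (hn : 0 < n) :
    ¬ IsEuclideanDesign 8 n.divisors (fun d => (d : ℝ) ^ t) :=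
  not_euclid n _ (sum_ne t n hn)

theorem design_gen (h g : ℕ →* ℤ) (n : ℕ) (hB : B h g n ≠ 0) :
    ¬ IsDesign 8 n.divisors (fun d => (d : ℝ) ^ 4 * (h d : ℝ) * (g (n / d) : ℝ)) := by
  apply not_design
  have h1 : ((B h g n : ℤ) : ℝ) ≠ 0 := by exact_mod_cast hB
  convert h1 using 1
  rw [B]
  push_cast
  refine Finset.sum_congr rfl fun d hd => ?_
  have hd0 : (d : ℝ) ≠ 0 := by
    have : 0 < d := Nat.pos_of_mem_divisors hd
    exact_mod_cast this.ne'
  field_simp

theorem euclid_gen (h g : ℕ →* ℤ) (n : ℕ) (hB : B h g n ≠ 0) :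
    ¬ IsEuclideanDesign 8 n.divisors (fun d => (h d : ℝ) * (g (n / d) : ℝ)) := by
  apply not_euclid
  have h1 : ((B h g n : ℤ) : ℝ) ≠ 0 := by exact_mod_cast hB
  convert h1 using 1
  rw [B]
  push_cast
  refine Finset.sum_congr rfl fun d hd => ?_
  ring

end Pool.Agent.H659.TD
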