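import Pool.Agent.H659.TD.Adic

/-!
Local sums (`MP_130199_nt`).
-/

set_option autoImplicit false

namespace Pool.Agent.H659.TD

/-- exact power of two of the complete homogeneous sums -/
theorem loc (b c x : ℤ) (hc : Odd c) (hx : Odd x) (hb : (4 : ℤ) ∣ b - (1 + c)) (k v u : ℕ)
    (hu : Odd u) (h : k / 2 + 1 = 2 ^ v * u) : ∃ y, Odd y ∧ f b c x (k + 2) = 2 ^ v * y := by
  obtain ⟨⟨y, hy, hy2⟩, z, hz⟩ := adic v b c x hc hx hb u hu
  rcases Nat.even_or_odd k with hk | hk
  · obtain ⟨t, rfl⟩ := hk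
    have e : t + t + 2 = 2 * (2 ^ v * u) := by omega
    exact ⟨y, hy, by rw [e, hy2]⟩
  · obtain ⟨t, rfl⟩ := hk
    have e : 2 * t + 1 + 2 = 2 * (2 ^ v * u) + 1 := by omega
    refine ⟨(x + b) * y + 4 * z, ?_, ?_⟩
    · have hbe : Even b := by
        obtain ⟨n, hn⟩ := hc
        obtain ⟨l, hl⟩ := hb
        exact ⟨n + 1 + 2 * l, by linarith⟩
      exact ((hx.add_even hbe).mul hy).add_even ⟨2 * z, by ring⟩
    · rw [e]
      rw [hy2] at hz
      have e2 : (2 : ℤ) ^ (v + 2) = 2 ^ v * 4 := by ring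
      rw [e2] at hz
      linear_combination hz

/-- the sums `∑ T(j) x^(k-j)` of a linear recurrence sequence -/
theorem sum_eq (T : ℕ → ℤ) (b c x : ℤ) (h0 : T 0 = 1) (h1 : T 1 = b)
    (h2 : ∀ j, T (j + 2) = b * T (j + 1) - c * T j) (k : ℕ) :
    ∑ j ∈ Finset.range (k + 1), T j * x ^ (k - j) = f b c x (k + 2) := by
  have hT : ∀ j : ℕ, T j = f b c x (j + 2) - x * f b c x (j + 1) ∧
      T (j + 1) = f b c x (j + 3) - x * f b c x (j + 2) := by
    intro j
    induction j with
    | zero => 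
      constructor
      · rw [h0]; simp [f]
      · rw [h1]; simp [f]
    | succ j ih =>
      refine ⟨ih.2, ?_⟩
      rw [show j + 1 + 1 = j + 2 by ring, h2 j, ih.1, ih.2]
      have e := f_rec b c x (j + 1)
      rw [show j + 1 + 3 = j + 4 by ring, show j + 1 + 2 = j + 3 by ring,
        show j + 1 + 1 = j + 2 by ring] at e
      rw [show j + 1 + 3 = j + 4 by ring, show j + 1 + 2 = j + 3 by ring, e]
      ring
  induction k with
  | zero => simp [h0, f]
  | succ k ih =>
    rw [Finset.sum_range_succ, Nat.sub_self, pow_zero, mul_one]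
    have e : ∑ j ∈ Finset.range (k + 1), T j * x ^ (k + 1 - j) =
        x * ∑ j ∈ Finset.range (k + 1), T j * x ^ (k - j) := by
      rw [Finset.mul_sum]
      refine Finset.sum_congr rfl fun j hj => ?_
      rw [Finset.mem_range] at hj
      rw [show k + 1 - j = (k - j) + 1 by omega, pow_succ]
      ring
    rw [e, ih, (hT k).2]
    ring

end Pool.Agent.H659.TD
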