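import Pool.Agent.H659.TD.Mod4
import Pool.Agent.H659.TD.Loc

/-!
The sums `∑_{d | n} τ(d) g(n/d)` and powers of two (`MP_130199_nt`).
-/

set_option autoImplicit false

namespace Pool.Agent.H659.TD

open Pool.Agent.X3.Tau (tau hecke tau_zero tau_one tau_two two_pow)

theorem tau_pow (p : ℕ) (hp : p.Prime) (k : ℕ) :
    tau (p ^ (k + 2)) = tau p * tau (p ^ (k + 1)) - (p : ℤ) ^ 11 * tau (p ^ k) := by
  have h := hecke p hp (p ^ (k + 1))
  rw [if_pos (dvd_pow_self p (Nat.succ_ne_zero k)), pow_succ p k, Nat.mul_div_cancel _ hp.pos,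
    ← pow_succ p k, show p * p ^ (k + 1) = p ^ (k + 2) by ring] at h
  linarith

theorem tau_pow_mul (p : ℕ) (hp : p.Prime) (m : ℕ) (hm : ¬ p ∣ m) (k : ℕ) :
    tau (p ^ k * m) = tau (p ^ k) * tau m ∧
      tau (p ^ (k + 1) * m) = tau (p ^ (k + 1)) * tau m := by
  induction k with
  | zero =>
    refine ⟨by rw [pow_zero, one_mul, tau_one, one_mul], ?_⟩
    have h := hecke p hp m
    rw [if_neg hm, add_zero] at h
    rw [zero_add, pow_one, h]
  | succ k ih =>
    refine ⟨ih.2, ?_⟩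
    have h := hecke p hp (p ^ (k + 1) * m)
    rw [if_pos (Dvd.dvd.mul_right (dvd_pow_self p (Nat.succ_ne_zero k)) m),
      show p ^ (k + 1) * m = (p ^ k * m) * p by ring, Nat.mul_div_cancel _ hp.pos,
      show (p ^ k * m) * p = p ^ (k + 1) * m by ring,
      show p * (p ^ (k + 1) * m) = p ^ (k + 2) * m by ring, ih.1, ih.2] at h
    rw [show k + 1 + 1 = k + 2 by ring, tau_pow p hp k]
    linarith

theorem tau_coprime (m n : ℕ) (h : m.Coprime n) : tau (m * n) = tau m * tau n := by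
  induction m using Nat.recOnPrimePow generalizing n with
  | zero => rw [zero_mul, tau_zero, zero_mul]
  | one => rw [one_mul, tau_one, one_mul]
  | prime_pow_mul a p k hp ha hk ih =>
    have h1 : a.Coprime n := Nat.Coprime.coprime_mul_left h
    have h2 : (p ^ k).Coprime n := Nat.Coprime.coprime_mul_right h
    have h3 : p.Coprime n := (Nat.coprime_pow_left_iff hk p n).1 h2
    have h4 : ¬ p ∣ a * n := by
      intro hd
      rcases hp.dvd_mul.1 hd with hd | hd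
      · exact ha hd
      · exact hp.one_lt.ne' (Nat.dvd_one.1 (h3 ▸ Nat.dvd_gcd dvd_rfl hd))
    rw [mul_assoc, (tau_pow_mul p hp _ h4 k).1, ih n h1, (tau_pow_mul p hp _ ha k).1, mul_assoc]

/-- `τ h` as an arithmetic function -/
noncomputable def tA (h : ℕ →* ℤ) : ArithmeticFunction ℤ :=
  ⟨fun n => tau n * h n, by rw [tau_zero, zero_mul]⟩

/-- a completely multiplicative function as an arithmetic function -/
def gA (g : ℕ →* ℤ) : ArithmeticFunction ℤ := ⟨fun n => if n = 0 then 0 else g n, by simp⟩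

/-- `∑_{d | n} τ(d) h(d) g(n/d)` -/
noncomputable def B (h g : ℕ →* ℤ) (n : ℕ) : ℤ := ∑ d ∈ n.divisors, tau d * h d * g (n / d)

theorem tA_mult (h : ℕ →* ℤ) : (tA h).IsMultiplicative := by
  refine ⟨?_, fun {m n} hc => ?_⟩
  · show tau 1 * h 1 = 1
    rw [tau_one, map_one, one_mul]
  · show tau (m * n) * h (m * n) = tau m * h m * (tau n * h n)
    rw [tau_coprime m n hc, map_mul]
    ring

theorem gA_mult (g : ℕ →* ℤ) : (gA g).IsMultiplicative := by
  rw [ArithmeticFunction.IsMultiplicative.iff_ne_zero]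
  refine ⟨by simp [gA], fun {m n} hm hn h => ?_⟩
  simp [gA, hm, hn]

theorem B_eq (h g : ℕ →* ℤ) (n : ℕ) : B h g n = (tA h * gA g) n := by
  rw [ArithmeticFunction.mul_apply, B,
    ← Nat.sum_divisorsAntidiagonal (fun d e => tau d * h d * g e)]
  refine Finset.sum_congr rfl fun x hx => ?_
  have h2 : x.2 ≠ 0 := by
    rintro h
    obtain ⟨h3, h4⟩ := Nat.mem_divisorsAntidiagonal.1 hx
    rw [h, mul_zero] at h3
    exact h4 h3.symm
  have h3 : (gA g) x.2 = g x.2 := by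
    show (if x.2 = 0 then 0 else g x.2) = _
    rw [if_neg h2]
  rw [h3]
  rfl

theorem B_coprime (h g : ℕ →* ℤ) (m n : ℕ) (hc : m.Coprime n) :
    B h g (m * n) = B h g m * B h g n := by
  rw [B_eq, B_eq, B_eq]
  exact ((tA_mult h).mul (gA_mult g)).map_mul_of_coprime hc

theorem B_prime_pow (h g : ℕ →* ℤ) (p : ℕ) (hp : p.Prime) (k : ℕ) :
    B h g (p ^ k) = ∑ j ∈ Finset.range (k + 1), (tau (p ^ j) * (h p) ^ j) * (g p) ^ (k - j) := by
  rw [B, Nat.sum_divisors_prime_pow hp]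
  refine Finset.sum_congr rfl fun j hj => ?_
  rw [Finset.mem_range] at hj
  rw [Nat.pow_div (by omega) hp.pos, map_pow, map_pow]

theorem B_one (h g : ℕ →* ℤ) : B h g 1 = 1 := by
  simp [B, tau_one]

theorem B_succ (h g : ℕ →* ℤ) (p : ℕ) (hp : p.Prime) (k : ℕ) :
    B h g (p ^ (k + 1)) = g p * B h g (p ^ k) + tau (p ^ (k + 1)) * (h p) ^ (k + 1) := by
  rw [B_prime_pow h g p hp, B_prime_pow h g p hp, Finset.sum_range_succ,
    Nat.sub_self, pow_zero, mul_one, Finset.mul_sum]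
  congr 1
  refine Finset.sum_congr rfl fun j hj => ?_
  rw [Finset.mem_range] at hj
  rw [show k + 1 - j = (k - j) + 1 by omega, pow_succ]
  ring

/-- the odd local factors -/
theorem B_odd_prime (h g : ℕ →* ℤ) (p : ℕ) (hp : p.Prime) (h2 : p ≠ 2) (hh : Odd (h p))
    (hg : Odd (g p)) (k : ℕ) :
    ∃ y : ℤ, Odd y ∧ B h g (p ^ k) = 2 ^ (padicValNat 2 (k / 2 + 1)) * y := by
  obtain ⟨v, u, hu, hv⟩ := Nat.exists_eq_two_pow_mul_odd (n := k / 2 + 1) (by omega)
  have hval : padicValNat 2 (k / 2 + 1) = v := by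
    rw [hv]
    have := Fact.mk Nat.prime_two
    rw [padicValNat.mul (by positivity) (by rintro rfl; simp at hu), padicValNat.prime_pow,
      padicValNat.eq_zero_of_not_dvd, add_zero]
    intro h
    exact (Nat.not_even_iff_odd.2 hu) (even_iff_two_dvd.2 h)
  have hpo : Odd (p : ℤ) := by
    exact_mod_cast hp.odd_of_ne_two h2
  have h4 : (4 : ℤ) ∣ tau p * h p - (1 + (h p) ^ 2 * (p : ℤ) ^ 11) := by
    obtain ⟨a, ha⟩ := tau_prime p hp h2
    obtain ⟨b, hb⟩ := hh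
    have hq : Odd ((p : ℤ) ^ 11) := hpo.pow
    obtain ⟨c, hc⟩ := hq
    refine ⟨a * h p - b * (2 * b * c + b + c), ?_⟩
    have e1 : tau p = 4 * a + (1 + (2 * c + 1)) := by linarith
    rw [e1, hc, hb]
    ring
  obtain ⟨y, hy, e⟩ := loc (tau p * h p) ((h p) ^ 2 * (p : ℤ) ^ 11) (g p)
    (hh.pow.mul hpo.pow) hg h4 k v u hu hv
  refine ⟨y, hy, ?_⟩
  rw [hval, ← e, B_prime_pow h g p hp]
  exact sum_eq (fun j => tau (p ^ j) * (h p) ^ j) _ _ _ (by simp [tau_one]) (by simp)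
    (fun j => by
      show tau (p ^ (j + 2)) * (h p) ^ (j + 2) = _
      rw [tau_pow p hp j]; ring) k

/-- odd squares -/
def oS : ArithmeticFunction ℕ :=
  ⟨fun n => if n ≠ 0 ∧ Odd n ∧ IsSquare n then 1 else 0, by simp⟩

theorem isSquare_mul (m n : ℕ) (hc : m.Coprime n) :
    IsSquare (m * n) ↔ IsSquare m ∧ IsSquare n := by
  constructor
  · rintro ⟨r, hr⟩
    rw [← pow_two] at hr
    have h1 : IsUnit (gcd m n) := by
      rw [Nat.isUnit_iff]; exact hc
    have h2 : IsUnit (gcd n m) := by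
      rw [Nat.isUnit_iff]; exact hc.symm
    obtain ⟨a, ha⟩ := exists_eq_pow_of_mul_eq_pow h1 hr
    obtain ⟨b, hb⟩ := exists_eq_pow_of_mul_eq_pow h2 (by rw [mul_comm]; exact hr)
    exact ⟨⟨a, by rw [ha, pow_two]⟩, ⟨b, by rw [hb, pow_two]⟩⟩
  · rintro ⟨h1, h2⟩
    exact h1.mul h2

theorem oS_mult : oS.IsMultiplicative := by
  rw [ArithmeticFunction.IsMultiplicative.iff_ne_zero]
  refine ⟨by simp [oS], fun {m n} hm hn h => ?_⟩
  show (if m * n ≠ 0 ∧ Odd (m * n) ∧ IsSquare (m * n) then 1 else 0) =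
    (if m ≠ 0 ∧ Odd m ∧ IsSquare m then 1 else 0) * (if n ≠ 0 ∧ Odd n ∧ IsSquare n then 1 else 0)
  have key : (m * n ≠ 0 ∧ Odd (m * n) ∧ IsSquare (m * n)) ↔
      (m ≠ 0 ∧ Odd m ∧ IsSquare m) ∧ (n ≠ 0 ∧ Odd n ∧ IsSquare n) := by
    rw [isSquare_mul m n h, Nat.odd_mul]
    have : m * n ≠ 0 := mul_ne_zero hm hn
    tauto
  by_cases h1 : m ≠ 0 ∧ Odd m ∧ IsSquare m
  · by_cases h2 : n ≠ 0 ∧ Odd n ∧ IsSquare n
    · rw [if_pos h1, if_pos h2, if_pos (key.2 ⟨h1, h2⟩), mul_one]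
    · rw [if_neg h2, mul_zero, if_neg (fun h' => h2 (key.1 h').2)]
  · rw [if_neg h1, zero_mul, if_neg (fun h' => h1 (key.1 h').1)]

/-- the number of odd squares dividing `n` -/
def Q (n : ℕ) : ℕ := (n.divisors.filter (fun d => Odd d ∧ IsSquare d)).card

theorem Q_eq (n : ℕ) : Q n = (oS * (ArithmeticFunction.zeta : ArithmeticFunction ℕ)) n := by
  rw [ArithmeticFunction.mul_apply, Q, Finset.card_filter,
    ← Nat.sum_divisorsAntidiagonal (fun d _ => if Odd d ∧ IsSquare d then 1 else 0)]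
  refine Finset.sum_congr rfl fun x hx => ?_
  obtain ⟨h3, h4⟩ := Nat.mem_divisorsAntidiagonal.1 hx
  have h1 : x.1 ≠ 0 := by
    rintro h
    rw [h, zero_mul] at h3
    exact h4 h3.symm
  have h2 : x.2 ≠ 0 := by
    rintro h
    rw [h, mul_zero] at h3
    exact h4 h3.symm
  rw [ArithmeticFunction.zeta_apply_ne h2, mul_one]
  show _ = (if x.1 ≠ 0 ∧ Odd x.1 ∧ IsSquare x.1 then 1 else 0)
  simp [h1]

theorem Q_coprime (m n : ℕ) (hc : m.Coprime n) : Q (m * n) = Q m * Q n := by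
  rw [Q_eq, Q_eq, Q_eq]
  exact (oS_mult.mul ArithmeticFunction.isMultiplicative_zeta).map_mul_of_coprime hc

theorem Q_pos (n : ℕ) (hn : 0 < n) : 0 < Q n := by
  refine Finset.card_pos.2 ⟨1, ?_⟩
  rw [Finset.mem_filter, Nat.mem_divisors]
  exact ⟨⟨one_dvd _, hn.ne'⟩, odd_one, IsSquare.one⟩

theorem Q_odd_prime (p : ℕ) (hp : p.Prime) (h2 : p ≠ 2) (k : ℕ) : Q (p ^ k) = k / 2 + 1 := by
  have hs : ∀ j, IsSquare (p ^ j) ↔ Even j := by
    intro j
    constructor
    · rintro ⟨r, hr⟩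
      have h1 : (p ^ j).factorization p = (r * r).factorization p := by rw [hr]
      have hr0 : r ≠ 0 := by
        rintro rfl
        exact (pow_ne_zero j hp.ne_zero) (by rw [hr, mul_zero])
      rw [hp.factorization_pow, Finsupp.single_eq_same, Nat.factorization_mul hr0 hr0,
        Finsupp.add_apply] at h1
      exact ⟨_, h1⟩
    · rintro ⟨r, hr⟩
      exact ⟨p ^ r, by rw [hr, pow_add]⟩
  rw [Q, Finset.card_filter, Nat.sum_divisors_prime_pow hp]
  have ho : ∀ j, Odd (p ^ j) := fun j => (hp.odd_of_ne_two h2).pow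
  have h3 : ∀ k, ∑ j ∈ Finset.range (k + 1), (if Odd (p ^ j) ∧ IsSquare (p ^ j) then 1 else 0) =
      k / 2 + 1 := by
    intro k
    induction k with
    | zero => rw [zero_add, Finset.sum_range_one, if_pos ⟨ho 0, (hs 0).2 ⟨0, rfl⟩⟩]
    | succ k ih =>
      rw [Finset.sum_range_succ, ih]
      by_cases h : Even (k + 1)
      · rw [if_pos ⟨ho _, (hs _).2 h⟩]
        obtain ⟨r, hr⟩ := h
        omega
      · rw [if_neg (fun h' => h ((hs _).1 h'.2))]
        rw [Nat.not_even_iff_odd] at h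
        obtain ⟨r, hr⟩ := h
        omega
  exact h3 k

theorem Q_two (k : ℕ) : Q (2 ^ k) = 1 := by
  rw [Q, Finset.card_eq_one]
  refine ⟨1, ?_⟩
  ext d
  rw [Finset.mem_filter, Finset.mem_singleton, Nat.mem_divisors_prime_pow Nat.prime_two]
  constructor
  · rintro ⟨⟨j, -, rfl⟩, ho, -⟩
    rcases Nat.eq_zero_or_pos j with h | h
    · rw [h, pow_zero]
    · exact absurd ((Nat.odd_pow_iff h.ne').1 ho) (by decide)
  · rintro rfl
    exact ⟨⟨0, Nat.zero_le _, by simp⟩, odd_one, IsSquare.one⟩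

/-- odd arguments -/
theorem B_odd (h g : ℕ →* ℤ) (hg : ∀ p : ℕ, p.Prime → p ≠ 2 → Odd (h p) ∧ Odd (g p)) (u : ℕ)
    (hu : Odd u) : ∃ y : ℤ, Odd y ∧ B h g u = 2 ^ (padicValNat 2 (Q u)) * y := by
  induction u using Nat.recOnPrimePow with
  | zero => simp at hu
  | one => exact ⟨1, odd_one, by rw [B_one, show Q 1 = 1 from Q_two 0]; simp⟩
  | prime_pow_mul a p k hp ha hk ih =>
    have hao : Odd a := (Nat.odd_mul.1 hu).2
    have hpo : Odd (p ^ k) := (Nat.odd_mul.1 hu).1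
    have hp2 : p ≠ 2 := by
      rintro rfl
      have := (Nat.odd_pow_iff hk.ne').1 hpo
      exact absurd this (by decide)
    obtain ⟨y, hy, ey⟩ := ih hao
    obtain ⟨z, hz, ez⟩ := B_odd_prime h g p hp hp2 (hg p hp hp2).1 (hg p hp hp2).2 k
    refine ⟨z * y, hz.mul hy, ?_⟩
    have hcop : (p ^ k).Coprime a :=
      (Nat.coprime_pow_left_iff hk p a).2 ((Nat.Prime.coprime_iff_not_dvd hp).2 ha)
    have := Fact.mk Nat.prime_two
    have ha0 : 0 < a := hao.pos
    rw [B_coprime h g _ _ hcop, ey, ez, Q_coprime _ _ hcop, Q_odd_prime p hp hp2,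
      padicValNat.mul (by omega) (Q_pos a ha0).ne', pow_add]
    ring

/-- powers of two -/
theorem B_two (h g : ℕ →* ℤ) (e : ℕ) (h1 : (2 ^ e : ℤ) ∣ 8 * h 2) (h2 : (2 ^ e : ℤ) ∣ g 2)
    (h3 : ¬ (2 ^ (e + 1) : ℤ) ∣ 8 * h 2 + g 2) (k : ℕ) :
    ∃ y : ℤ, Odd y ∧ B h g (2 ^ k) = 2 ^ (e * k) * y := by
  obtain ⟨w, hw0, hw, hw2⟩ := two_pow
  have ht : ∀ k, tau (2 ^ k) = 8 ^ k * w k := fun k => by
    have := hw2 k 1 odd_one
    rwa [mul_one, tau_one, mul_one] at this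
  obtain ⟨a, ha⟩ := h1
  obtain ⟨b, hb⟩ := h2
  have hab : Odd (a + b) := by
    by_contra hc
    rw [Int.not_odd_iff_even] at hc
    obtain ⟨c, hc⟩ := hc
    apply h3
    refine ⟨c, ?_⟩
    rw [ha, hb, ← mul_add, hc, pow_succ]
    ring
  induction k with
  | zero => exact ⟨1, odd_one, by rw [pow_zero, B_one]; simp⟩
  | succ k ih =>
    obtain ⟨y, hy, ey⟩ := ih
    refine ⟨b * y + a ^ (k + 1) * w (k + 1), ?_, ?_⟩
    · rcases Int.even_or_odd a with he | ho
      · have hbo : Odd b := by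
          rcases Int.even_or_odd b with hbe | hbo
          · exact absurd hab (Int.not_odd_iff_even.2 (he.add hbe))
          · exact hbo
        exact (hbo.mul hy).add_even ((he.pow_of_ne_zero (Nat.succ_ne_zero k)).mul_right _)
      · have hbe : Even b := by
          rcases Int.even_or_odd b with hbe | hbo
          · exact hbe
          · exact absurd hab (Int.not_odd_iff_even.2 (ho.add_odd hbo))
        exact (hbe.mul_right _).add_odd (ho.pow.mul (hw _))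
    · rw [B_succ h g 2 Nat.prime_two, ey, ht, hb]
      have e8 : (8 : ℤ) ^ (k + 1) * w (k + 1) * (h 2) ^ (k + 1) =
          (2 ^ e * a) ^ (k + 1) * w (k + 1) := by
        rw [← ha]; ring
      have e9 : (2 : ℤ) ^ (e * (k + 1)) = 2 ^ e * 2 ^ (e * k) := by
        rw [← pow_add]; congr 1; ring
      rw [e8, mul_pow, ← pow_mul, e9]
      ring

/-- all arguments -/
theorem B_all (h g : ℕ →* ℤ) (hg : ∀ p : ℕ, p.Prime → p ≠ 2 → Odd (h p) ∧ Odd (g p)) (e : ℕ)
    (h1 : (2 ^ e : ℤ) ∣ 8 * h 2) (h2 : (2 ^ e : ℤ) ∣ g 2)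
    (h3 : ¬ (2 ^ (e + 1) : ℤ) ∣ 8 * h 2 + g 2) (n : ℕ) (hn : 0 < n) :
    ∃ y : ℤ, Odd y ∧ B h g n = 2 ^ (e * padicValNat 2 n + padicValNat 2 (Q n)) * y := by
  obtain ⟨k, u, hu, rfl⟩ := Nat.exists_eq_two_pow_mul_odd hn.ne'
  have := Fact.mk Nat.prime_two
  have hval : padicValNat 2 (2 ^ k * u) = k := by
    rw [padicValNat.mul (by positivity) (by rintro rfl; simp at hu), padicValNat.prime_pow,
      padicValNat.eq_zero_of_not_dvd, add_zero]
    intro h
    exact (Nat.not_even_iff_odd.2 hu) (even_iff_two_dvd.2 h)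
  have hcop : (2 ^ k).Coprime u := Nat.Coprime.pow_left k (Nat.coprime_two_left.2 hu)
  obtain ⟨y, hy, ey⟩ := B_odd h g hg u hu
  obtain ⟨z, hz, ez⟩ := B_two h g e h1 h2 h3 k
  refine ⟨z * y, hz.mul hy, ?_⟩
  rw [hval, B_coprime h g _ _ hcop, ey, ez, Q_coprime _ _ hcop, Q_two, one_mul, pow_add]
  ring

end Pool.Agent.H659.TD
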