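import Pool.Graph.R_pool_sql_team_seeded_843ab51a.H209.ES.Two
import Pool.Graph.R_pool_sql_team_seeded_64922ed1.X3.Tau

/-!
Ramanujan's function at primes modulo 4 (`MP_130199_nt`).
-/

set_option autoImplicit false

namespace Pool.Agent.H659.TD

open PowerSeries Pool.Agent.H397R2.PP Pool.Agent.V11330.ET Pool.Agent.H209.ES
open scoped Classical

/-- the generating function of the triangular numbers -/
noncomputable def Th : ℤ⟦X⟧ := PowerSeries.mk fun n => if n ∈ Set.range tri then 1 else 0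

theorem coeff_Th (n : ℕ) : coeff n Th = if n ∈ Set.range tri then 1 else 0 := by
  rw [Th, coeff_mk]

/-- a series with coefficients divisible by `m` is divisible by `m` -/
theorem dvd_of_coeff (m : ℤ) (F : ℤ⟦X⟧) (h : ∀ n, m ∣ coeff n F) : C m ∣ F := by
  choose g hg using h
  refine ⟨PowerSeries.mk g, ?_⟩
  ext n
  rw [hg, coeff_C_mul, coeff_mk]

theorem coeff_of_dvd (m : ℤ) (F : ℤ⟦X⟧) (h : C m ∣ F) (n : ℕ) : m ∣ coeff n F := by
  obtain ⟨G, rfl⟩ := h
  rw [coeff_C_mul]
  exact Dvd.intro _ rfl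

theorem sq_step (A B : ℤ⟦X⟧) (h : C (2 : ℤ) ∣ A - B) : C (4 : ℤ) ∣ A ^ 2 - B ^ 2 := by
  obtain ⟨G, hG⟩ := h
  refine ⟨G * (B + G), ?_⟩
  have hA : A = B + C 2 * G := by linear_combination hG
  rw [hA]
  have h2 : (C (4 : ℤ) : ℤ⟦X⟧) = 4 := by norm_num
  have h3 : (C (2 : ℤ) : ℤ⟦X⟧) = 2 := by norm_num
  rw [h2, h3]
  ring

/-- squaring and expansion agree modulo 2 -/
theorem sq_expand (F : ℤ⟦X⟧) : C (2 : ℤ) ∣ F ^ 2 - PowerSeries.expand 2 two_ne_zero F := by
  apply dvd_of_coeff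
  intro n
  have h := pow_eq_expand' 2 1 two_ne_zero (by norm_num) (F.map (Int.castRingHom (ZMod 2)))
  have h1 := congrArg (coeff n) h
  rw [← map_pow, ← PowerSeries.map_expand, coeff_map, coeff_map] at h1
  have h2 : ((coeff n (F ^ 2 - PowerSeries.expand 2 two_ne_zero F) : ℤ) : ZMod 2) = 0 := by
    rw [map_sub, Int.cast_sub, sub_eq_zero]
    exact h1
  have := (ZMod.intCast_zmod_eq_zero_iff_dvd _ 2).1 h2
  exact_mod_cast this

theorem cube_mod4 : C (4 : ℤ) ∣ pentagonalSeries ℤ ^ 3 - Th := by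
  apply dvd_of_coeff
  intro n
  rw [map_sub, coeff_Th]
  split_ifs with h
  · obtain ⟨k, rfl⟩ := h
    rw [coeff_cube_tri]
    rcases Nat.even_or_odd k with hk | hk
    · rw [hk.neg_one_pow]
      obtain ⟨t, rfl⟩ := hk
      exact ⟨t, by push_cast; ring⟩
    · rw [hk.neg_one_pow]
      obtain ⟨t, rfl⟩ := hk
      exact ⟨-t - 1, by push_cast; ring⟩
  · rw [coeff_cube_not h, sub_zero]
    exact dvd_zero _

theorem pow8 : C (4 : ℤ) ∣ pentagonalSeries ℤ ^ 24 -
    PowerSeries.expand 4 four_ne_zero (Th ^ 2) := by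
  have h1 : C (4 : ℤ) ∣ pentagonalSeries ℤ ^ 24 - Th ^ 8 := by
    have := cube_mod4.trans (sub_dvd_pow_sub_pow (pentagonalSeries ℤ ^ 3) Th 8)
    rwa [← pow_mul] at this
  have h2 : C (4 : ℤ) ∣ Th ^ 8 - (PowerSeries.expand 2 two_ne_zero Th) ^ 4 := by
    have h := sq_step _ _ (sq_expand Th)
    have := h.trans (sub_dvd_pow_sub_pow _ _ 2)
    rwa [← pow_mul, ← pow_mul, ← pow_mul] at this
  have h3 : C (4 : ℤ) ∣ (PowerSeries.expand 2 two_ne_zero Th) ^ 4 -
      (PowerSeries.expand 4 four_ne_zero Th) ^ 2 := by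
    have h := sq_step _ _ (sq_expand (PowerSeries.expand 2 two_ne_zero Th))
    rw [← PowerSeries.expand_mul 2 two_ne_zero 2 two_ne_zero] at h
    rwa [← pow_mul] at h
  have h4 := dvd_add (dvd_add h1 h2) h3
  rw [map_pow]
  convert h4 using 1
  ring

theorem tau_mod4 (m : ℕ) : (4 : ℤ) ∣ tau (m + 1) -
    coeff m (PowerSeries.expand 4 four_ne_zero (Th ^ 2)) := by
  have h := coeff_of_dvd _ _ pow8 m
  rw [map_sub] at h
  rwa [tau, Dz, coeff_succ_X_mul]

/-- uniqueness of sums of two squares -/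
theorem uniq (p : ℕ) (hp : p.Prime) (a b c d : ℤ) (ha : 0 < a) (hb : 0 < b) (hc : 0 < c)
    (hd : 0 < d) (h1 : a ^ 2 + b ^ 2 = p) (h2 : c ^ 2 + d ^ 2 = p) :
    (a = c ∧ b = d) ∨ (a = d ∧ b = c) := by
  have hp0 : (0 : ℤ) < p := by exact_mod_cast hp.pos
  have hpi : Prime (p : ℤ) := Nat.prime_iff_prime_int.1 hp
  have h3 : (p : ℤ) ∣ (a * d - b * c) * (a * d + b * c) :=
    ⟨a ^ 2 - c ^ 2, by linear_combination (a ^ 2) * h2 - (c ^ 2) * h1⟩
  rcases hpi.dvd_or_dvd h3 with h | h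
  · left
    have h4 : a * d - b * c = 0 := by
      apply Int.eq_zero_of_abs_lt_dvd h
      apply abs_lt_of_sq_lt_sq _ hp0.le
      have : (a * d - b * c) ^ 2 + (a * c + b * d) ^ 2 = (p : ℤ) ^ 2 := by
        rw [← h1] at h2 ⊢
        linear_combination (a ^ 2 + b ^ 2) * h2
      have h5 : 0 < a * c + b * d := by positivity
      nlinarith
    have h6 : a * c + b * d = p := by
      have : (a * c + b * d) ^ 2 = (p : ℤ) ^ 2 := by
        have : (a * d - b * c) ^ 2 + (a * c + b * d) ^ 2 = (p : ℤ) ^ 2 := by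
          rw [← h1] at h2 ⊢
          linear_combination (a ^ 2 + b ^ 2) * h2
        rw [h4] at this
        linarith
      exact (pow_left_inj₀ (by positivity) hp0.le two_ne_zero).1 this
    have h7 : a = c := by
      have : a * (p : ℤ) = c * p := by
        rw [← h6]
        have : a * (a * c + b * d) = c * (a ^ 2 + b ^ 2) := by linear_combination b * h4
        rw [this, h1, h6]
      exact mul_right_cancel₀ hp0.ne' this
    refine ⟨h7, ?_⟩
    subst h7
    have : b ^ 2 = d ^ 2 := by linarith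
    exact (pow_left_inj₀ hb.le hd.le two_ne_zero).1 this
  · right
    have h5 : 0 < a * d + b * c := by positivity
    have h6 : a * d + b * c = p := by
      apply le_antisymm _ (Int.le_of_dvd h5 h)
      have : (a * d + b * c) ^ 2 + (a * c - b * d) ^ 2 = (p : ℤ) ^ 2 := by
        rw [← h1] at h2 ⊢
        linear_combination (a ^ 2 + b ^ 2) * h2
      have h8 : (a * d + b * c) ^ 2 ≤ (p : ℤ) ^ 2 := by nlinarith [sq_nonneg (a * c - b * d)]
      exact (pow_le_pow_iff_left₀ h5.le hp0.le two_ne_zero).1 h8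
    have h4 : a * c - b * d = 0 := by
      have : (a * d + b * c) ^ 2 + (a * c - b * d) ^ 2 = (p : ℤ) ^ 2 := by
        rw [← h1] at h2 ⊢
        linear_combination (a ^ 2 + b ^ 2) * h2
      rw [h6] at this
      have h9 : (a * c - b * d) ^ 2 = 0 := by linarith
      exact pow_eq_zero_iff two_ne_zero |>.1 h9
    have h7 : a = d := by
      have : a * (p : ℤ) = d * p := by
        have : a * (a * d + b * c) = d * (a ^ 2 + b ^ 2) := by linear_combination b * h4
        rw [h6, h1] at this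
        exact this
      exact mul_right_cancel₀ hp0.ne' this
    refine ⟨h7, ?_⟩
    subst h7
    have : b ^ 2 = c ^ 2 := by linarith
    exact (pow_left_inj₀ hb.le hc.le two_ne_zero).1 this

theorem tri_two (i : ℕ) : 2 * tri i = i * (i + 1) := by
  have := tri_eq i
  nlinarith

theorem coeff_sq (n : ℕ) : coeff n (Th ^ 2) =
    (((Finset.HasAntidiagonal.antidiagonal n).filter
      (fun x => x.1 ∈ Set.range tri ∧ x.2 ∈ Set.range tri)).card : ℤ) := by
  rw [sq, coeff_mul, Finset.card_filter]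
  push_cast
  refine Finset.sum_congr rfl fun x _ => ?_
  rw [coeff_Th, coeff_Th]
  by_cases h1 : x.1 ∈ Set.range tri
  · by_cases h2 : x.2 ∈ Set.range tri
    · rw [if_pos h1, if_pos h2, if_pos ⟨h1, h2⟩]; norm_num
    · rw [if_pos h1, if_neg h2, if_neg (fun h => h2 h.2)]; norm_num
  · rw [if_neg h1, zero_mul, if_neg (fun h => h1 h.1)]

/-- two pairs for a prime `4 n + 1` -/
theorem count (p n : ℕ) (hp : p.Prime) (h : p = 4 * n + 1) : coeff n (Th ^ 2) = 2 := by
  rw [coeff_sq]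
  have := Fact.mk hp
  obtain ⟨a, b, hab⟩ := Nat.Prime.sq_add_sq (p := p) (by omega)
  have ha : a ≠ 0 := by
    rintro rfl
    have : ¬ IsSquare p := (Nat.prime_iff.1 hp).not_isSquare
    exact this ⟨b, by rw [← hab]; ring⟩
  have hb : b ≠ 0 := by
    rintro rfl
    have : ¬ IsSquare p := (Nat.prime_iff.1 hp).not_isSquare
    exact this ⟨a, by rw [← hab]; ring⟩
  have hne : a ≠ b := by
    rintro rfl
    omega
  obtain ⟨a, b, hab, hlt, hb⟩ : ∃ a b : ℕ, a ^ 2 + b ^ 2 = p ∧ b < a ∧ 0 < b := by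
    rcases lt_or_gt_of_ne hne with h | h
    · exact ⟨b, a, by rw [← hab]; ring, h, Nat.pos_of_ne_zero ha⟩
    · exact ⟨a, b, hab, h, Nat.pos_of_ne_zero hb⟩
  have hpar : (a + b) % 2 = 1 := by
    have h1 : (a ^ 2 + b ^ 2) % 2 = 1 := by rw [hab]; omega
    rcases Nat.even_or_odd a with ha | ha <;> rcases Nat.even_or_odd b with hb | hb
    · obtain ⟨s, rfl⟩ := ha
      obtain ⟨t, rfl⟩ := hb
      ring_nf at h1
      omega
    · exact Nat.odd_iff.1 (ha.add_odd hb)
    · exact Nat.odd_iff.1 (ha.add_even hb)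
    · obtain ⟨s, rfl⟩ := ha
      obtain ⟨t, rfl⟩ := hb
      ring_nf at h1
      omega
  obtain ⟨i, j, hi, hj⟩ : ∃ i j : ℕ, a = i + j + 1 ∧ i = j + b := by
    refine ⟨(a + b - 1) / 2, (a - b - 1) / 2, ?_, ?_⟩ <;> omega
  have hij : tri i + tri j = n := by
    have e1 := tri_two i
    have e2 := tri_two j
    subst hj hi
    nlinarith
  have hset : (Finset.HasAntidiagonal.antidiagonal n).filter
      (fun x => x.1 ∈ Set.range tri ∧ x.2 ∈ Set.range tri) = {(tri i, tri j), (tri j, tri i)} := by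
    ext ⟨x, y⟩
    simp only [Finset.mem_filter, Finset.HasAntidiagonal.mem_antidiagonal, Finset.mem_insert,
      Finset.mem_singleton, Prod.mk.injEq]
    constructor
    · rintro ⟨hxy, ⟨s, rfl⟩, ⟨t, rfl⟩⟩
      have es := tri_two s
      have et := tri_two t
      have hst : s ≠ t := by
        rintro rfl
        have : ¬ IsSquare p := (Nat.prime_iff.1 hp).not_isSquare
        apply this
        refine ⟨2 * s + 1, ?_⟩
        rw [h]
        nlinarith
      have key : ∀ s t : ℕ, t < s → tri s + tri t = n → s = i ∧ t = j := by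
        intro s t hlt2 hst2
        have es := tri_two s
        have et := tri_two t
        have hu := uniq p hp a b (s + t + 1) (s - t) (by omega) (by omega) (by omega) (by omega)
          (by exact_mod_cast hab) (by
            rw [h]
            push_cast
            have es' : (2 * tri s : ℤ) = s * (s + 1) := by exact_mod_cast es
            have et' : (2 * tri t : ℤ) = t * (t + 1) := by exact_mod_cast et
            have hst' : (tri s + tri t : ℤ) = n := by exact_mod_cast hst2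
            nlinarith)
        rcases hu with ⟨h1, h2⟩ | ⟨h1, h2⟩
        · constructor <;> omega
        · exfalso
          omega
      rcases lt_or_gt_of_ne hst with hl | hl
      · obtain ⟨h1, h2⟩ := key t s hl (by rw [add_comm]; exact hxy)
        right
        rw [h1, h2]
        exact ⟨rfl, rfl⟩
      · obtain ⟨h1, h2⟩ := key s t hl hxy
        left
        rw [h1, h2]
        exact ⟨rfl, rfl⟩
    · rintro (⟨rfl, rfl⟩ | ⟨rfl, rfl⟩)
      · exact ⟨hij, ⟨i, rfl⟩, ⟨j, rfl⟩⟩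
      · exact ⟨by rw [add_comm]; exact hij, ⟨j, rfl⟩, ⟨i, rfl⟩⟩
  rw [hset, Finset.card_pair]
  · rfl
  · intro h
    rw [Prod.mk.injEq] at h
    have := tri_inj h.1
    omega

/-- `τ(p) ≡ 1 + p ^ 11 (mod 4)` for odd primes -/
theorem tau_prime (p : ℕ) (hp : p.Prime) (h2 : p ≠ 2) :
    (4 : ℤ) ∣ Pool.Agent.X3.Tau.tau p - (1 + (p : ℤ) ^ 11) := by
  have ht : Pool.Agent.X3.Tau.tau p = tau p := by
    rw [Pool.Agent.X3.Tau.tau_eq]; rfl
  rw [ht]
  have hodd := hp.eq_two_or_odd.resolve_left h2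
  have h : p % 4 = 1 ∨ p % 4 = 3 := by omega
  have hm := tau_mod4 (p - 1)
  rw [Nat.sub_add_cancel hp.one_le] at hm
  rcases h with h | h
  · obtain ⟨n, hn⟩ : ∃ n, p = 4 * n + 1 := ⟨p / 4, by omega⟩
    rw [show p - 1 = 4 * n by omega, PowerSeries.coeff_expand_mul, count p n hp hn] at hm
    have : (4 : ℤ) ∣ (2 : ℤ) - (1 + (p : ℤ) ^ 11) := by
      have h1 : ((p : ℤ)) = 4 * n + 1 := by exact_mod_cast hn
      have h3 : (4 : ℤ) ∣ (p : ℤ) ^ 11 - 1 ^ 11 := by
        refine dvd_trans ?_ (sub_dvd_pow_sub_pow _ _ 11)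
        exact ⟨n, by rw [h1]; ring⟩
      have h4 : (2 : ℤ) - (1 + (p : ℤ) ^ 11) = -((p : ℤ) ^ 11 - 1 ^ 11) := by ring
      rw [h4]
      exact (dvd_neg).2 h3
    have h5 := dvd_add hm this
    have h6 : tau p - 2 + (2 - (1 + (p : ℤ) ^ 11)) = tau p - (1 + (p : ℤ) ^ 11) := by ring
    rwa [h6] at h5
  · obtain ⟨n, hn⟩ : ∃ n, p = 4 * n + 3 := ⟨p / 4, by omega⟩
    have h0 : coeff (p - 1) (PowerSeries.expand 4 four_ne_zero (Th ^ 2)) = 0 :=
      PowerSeries.coeff_expand_of_not_dvd (p := 4) (hp := four_ne_zero) (φ := Th ^ 2)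
        (m := p - 1) (by omega)
    rw [h0, sub_zero] at hm
    have h3 : (4 : ℤ) ∣ (p : ℤ) ^ 11 - (-1) ^ 11 := by
      refine dvd_trans ?_ (sub_dvd_pow_sub_pow _ _ 11)
      have h1 : ((p : ℤ)) = 4 * n + 3 := by exact_mod_cast hn
      exact ⟨n + 1, by rw [h1]; ring⟩
    have h5 := dvd_sub hm h3
    have h6 : tau p - ((p : ℤ) ^ 11 - (-1) ^ 11) = tau p - (1 + (p : ℤ) ^ 11) := by ring
    rwa [h6] at h5

end Pool.Agent.H659.TD
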